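import Pool.Agent.H15.CCF.M4
import Pool.Agent.H7.L.N496_CV_L2Pf

/-!
# The conjecture of Davis and Okun for all covers of the reflection manifolds of barycentrically subdivided nerves

`W G` is the right-angled Coxeter group of a graph `G`, finite or infinite. We show `b_k^(2)(K) = 0` (Lueck's dimension
of `Tor_k^{ℤ[K]}(N(K), ℤ)`, `HasL2Betti`) for **all** subgroups `K`, of finite or infinite index, finitely generated or
not, with or without torsion, of the following groups `Γ`.

**(1)** `G` is a graph, finite or infinite, each finite full subgraph of which is a full subgraph of the comparability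
graph of a finite poset of rank `n` whose order complex is a Gorenstein* complex over the field with two elements
(`FinGor n G`, `GorStar`). For example `G` is the comparability graph of the set of cells of a regular cell structure of
the `(n-1)`-sphere, that is, the flag complex of `G` is its barycentric subdivision, or a full subgraph of such a graph.
Each finitely generated subgroup of `Γ` has a subgroup of finite index which embeds in some such `W G` (`LocIn`), for
example `Γ = W G`, or a group which contains a subgroup of `W G` as a subgroup of finite index. Then `b_k^(2)(K) = 0` for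
`k > 2 n / 3`, and for `k = ⌊2 n / 3⌋` if `n` is `3`, `5`, `6` or at least `8`. For `n ≤ 6`, `n = 8` and `n = 10` these are
all the degrees `k > n / 2`.

**(2)** Only the links of the vertices of `G` are the comparability graphs of posets as in (1), of rank `n - 1`
(`LocGor (n - 1) G`). For example `G` is the comparability graph of the set of cells of a regular cell structure of a
compact or noncompact `(n-1)`-manifold without boundary. Then `b_k^(2)(K) = 0` for `k > (2 n + 1) / 3`, for
`k > (2 n - 2) / 3` if `n` is `4`, `6`, `7` or at least `9`, and for all `k > n / 2` if `n` is `2`, `4` or `6`.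

If the flag complex `L` of `G` is the barycentric subdivision of a PL cell structure of the `(n-1)`-sphere then `W G`
acts properly on a contractible `n`-manifold `X`, and for the torsion free subgroups `K` the manifolds `X / K`, usually
not compact, are aspherical `n`-manifolds with fundamental group `K`: all the covers of the closed aspherical manifolds
`X / Γ'`, `Γ'` torsion free of finite index. The conjecture of Davis and Okun is `b_k^(2)(X / K) = 0` for `k > n / 2`.

The proof uses a calculus of rules (`Van`) for the vanishing of the homology of the full subcomplexes of the Davis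
complex for all subgroups: a top dimensional rule based on the vanishing of the mod `2` van Kampen obstruction,
suspensions, cones, adding vertices, Mayer-Vietoris, and a combinatorial deduction for sets of ranks.
-/

set_option autoImplicit false

namespace Pool.Agent.Results.MP_4f4d9f_gt.CoversOfPosetNerves

open Pool.Agent.N496.CV
open Pool.Agent.H15.CC (LocIn FinGor LocGor)

/-- Let every finitely generated subgroup of the group `Γ` have a subgroup of finite index which embeds in `W G` for a
graph `G`, finite or infinite, such that (1) all the finite full subgraphs of `G` are full subgraphs of comparability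
graphs of Gorenstein* posets of rank `n`, or (2) the links of the vertices of `G` are comparability graphs of Gorenstein*
posets of rank `n - 1`. Then the `k`-th `L²`-Betti numbers of all the subgroups `K` of `Γ` vanish for the following `k`:
in case (1) for `k > 2 n / 3`, for `k ≥ ⌊2 n / 3⌋` if `n` is `3`, `5`, `6` or `≥ 8`, so for all `k > n / 2` if `n ≤ 6`, `n = 8` or
`n = 10`; in case (2) for `k > (2 n + 1) / 3`, for `k > (2 n - 2) / 3` if `n` is `4`, `6`, `7` or `≥ 9`, so for all `k > n / 2` if
`n` is `2`, `4` or `6`. -/
theorem result : ∀ (n k : ℕ) (Γ : Type) [Group Γ],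
    (LocIn (FinGor n) Γ ∧ (2 * n < 3 * k ∨ ((n = 3 ∨ n = 5 ∨ n = 6 ∨ 8 ≤ n) ∧ 2 * n < 3 * k + 3) ∨
      ((n ≤ 6 ∨ n = 8 ∨ n = 10) ∧ n < 2 * k))) ∨
    (1 ≤ n ∧ LocIn (LocGor (n - 1)) Γ ∧ (2 * n + 1 < 3 * k ∨
      ((n = 4 ∨ n = 6 ∨ n = 7 ∨ 9 ≤ n) ∧ 2 * n < 3 * k + 2) ∨ ((n = 2 ∨ n = 4 ∨ n = 6) ∧ n < 2 * k))) →
    ∀ K : Subgroup Γ, HasL2Betti K k 0 := by
  intro n k Γ _ h K
  rcases h with ⟨h, hk⟩ | ⟨hn, h, hk⟩
  · have h2 := hasL2Betti K k
    rw [Pool.Agent.H15.CC.betti_gor (n := n) (k := k) (by
      unfold Pool.Agent.H15.CC.InRange
      omega) h K] at h2
    exact h2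
  · obtain ⟨j, rfl⟩ : ∃ j, k = j + 1 := ⟨k - 1, by omega⟩
    have h2 := hasL2Betti K (j + 1)
    rw [Pool.Agent.H15.CC.betti_loc (n := n - 1) (k := j) (by
      unfold Pool.Agent.H15.CC.InRange
      omega) h K] at h2
    exact h2

end Pool.Agent.Results.MP_4f4d9f_gt.CoversOfPosetNerves
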