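import Pool.Agent.H15.CCF.D4
import Pool.Agent.H7.L.N496_CV_L2Pf

/-!
# Vanishing above the middle for all subgroups of the Coxeter groups of subdivided manifolds

Let the flag complex `L` of the finite graph `H` be a homology manifold of dimension `n - 1` over the field with two
elements (`HMan2 n H`: the link of each nonempty simplex has the mod `2` homology of a sphere of the right dimension),
for example a flag triangulation of a closed `(n-1)`-manifold. Nothing is assumed on the homology or the fundamental
group of `L` itself. Let `d = n / 2` if `n` is even, and `d = (n + 1) / 2` if `n` is odd.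

**Theorem.** There is an iterated edge subdivision `S` of `H` (`Sub H S`) such that for every group `Γ` all the finitely
generated subgroups of which are virtually embedded in the right-angled Coxeter group `W S` (`LocEmb`; for example
`Γ = W S`, or any group which is commensurable to a subgroup of `W S`), and for every subgroup `K` of `Γ`, of finite or
infinite index, finitely generated or not, with or without torsion, `b_k^(2)(K) = 0` for all `k > d` (`HasL2Betti`:
Lueck's dimension of `Tor_k^{ℤ[K]}(N(K), ℤ)`). Moreover a full subcomplex spanned by a set `B` of vertices which is
properly coloured by `d + 1` colours need not be changed.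

If `n` is even these are all the degrees `k > n / 2`; if `n` is odd only the degree `k = (n + 1) / 2` is missing. (For
the triangulations of surfaces, `n = 3`, the second `L²`-Betti number of `W S` is not zero in general.)

The group `W S` has virtual cohomological dimension `n` if `L` is a closed manifold, so the aspherical manifolds `M`
with a fundamental group commensurable to `W S` have dimension at least `n`. For even `n` the theorem proves the
conjecture of Davis and Okun for all the covers of such an `M`, with room to spare if the dimension of `M` is larger
than `n`. If `L` is a sphere, these `M` include the quotients of the Davis complex, which is then a contractible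
`n`-manifold.
-/

set_option autoImplicit false

namespace Pool.Agent.Results.MP_4f4d9f_gt.CoversOfSubdividedManifolds

open Pool.Agent.W907.SG Pool.Agent.N496.LT Pool.Agent.N496.CV
open Pool.Agent.H15.CC (LocEmb)
open Pool.Agent.H15.CC.Man (HMan2)

/-- Let the flag complex of the finite graph `H` be a homology manifold of dimension `n - 1` over the field with two
elements, `n = 2 d` or `n = 2 d - 1`, `1 ≤ d`, and let the full subcomplex spanned by the set `B` of vertices be properly
coloured by `d + 1` colours. Then there is an iterated edge subdivision `S` of `H`, again a homology manifold, which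
induces on `B` the same graph as `H`, such that for every group `Γ` each finitely generated subgroup of which has a
subgroup of finite index embedding in `W S`, every subgroup `K` of `Γ` and every `k > d` the `k`-th `L²`-Betti number of
`K` is zero. -/
theorem result : ∀ (d n N : ℕ) (H : SimpleGraph (Fin N)), 1 ≤ d → (n = 2 * d ∨ n + 1 = 2 * d) → HMan2 n H →
    ∀ (B : Set (Fin N)) (c : Fin N → Fin (d + 1)), (∀ u ∈ B, ∀ v ∈ B, H.Adj u v → c u ≠ c v) →
    ∃ (m : ℕ) (h : N ≤ m) (S : SimpleGraph (Fin m)), Sub H S ∧ HMan2 n S ∧
      (∀ u ∈ B, ∀ v ∈ B, S.Adj (Fin.castLE h u) (Fin.castLE h v) ↔ H.Adj u v) ∧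
      ∀ (Γ : Type) [Group Γ], LocEmb Γ (W S) → ∀ (K : Subgroup Γ) (k : ℕ), d < k → HasL2Betti K k 0 := by
  intro d n N H hd hn hH B c hc
  obtain ⟨m, h, S, h1, h2, h3, h4⟩ := Pool.Agent.H15.CC.van_man hd hn H hH B c hc
  refine ⟨m, h, S, h1, h2, h3, fun Γ _ hΓ K k hk => ?_⟩
  have h5 := hasL2Betti K k
  rw [Pool.Agent.H15.CC.betti_man (by omega) (fun C => h4 C k hk) hΓ K] at h5
  exact h5

end Pool.Agent.Results.MP_4f4d9f_gt.CoversOfSubdividedManifolds
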