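import Pool.Agent.H7.RC.Main
import Pool.Agent.H6.CT.VETop

/-!
# The conjecture of Davis and Okun for all covers of reflection manifolds whose nerve is balanced outside a thin set

Let `L` be a finite flag complex of dimension at most `d`, with the graph `G`, which is embedded in the sphere of
dimension `2 d`, or whose van Kampen obstruction in the degree `2 d` vanishes, and let `T` be a set of vertices such that

* the full subcomplex of `L` spanned by the vertices outside `T` is properly coloured by `d + 1` colours,
* `T` is thin (`Thin G T (d + 1)`): each nonempty family of `d`-simplices meeting `T` has a member `σ` with a face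
  `σ \ v` of codimension one which is contained in no other member, or `v ∈ T` and the face is contained in exactly
  one other member; this is so for example if each `(d-1)`-simplex has at most two common neighbours in `T`.

Let `K` be a group, with or without torsion, finitely generated or not, such that each finitely generated subgroup of `K`
has a subgroup of finite index which embeds in the right-angled Coxeter group `W G` (`VE K (W G)`); for example any
subgroup of `W G`, or any group which is commensurable to a subgroup of `W G`. We show that the `L²`-Betti number `b_k(K)`
(Lueck's dimension of `Tor_k^{ℤ[K]}(N(K), ℤ)`, `HasL2Betti`) is zero for all `k > d`.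

If `L` is piecewise linearly embedded in the sphere of dimension `2 d` then `W G` acts properly and cocompactly on a
contractible manifold `X` with boundary of dimension `n = 2 d + 1`, and `k > d` if and only if `k > n / 2`. For a torsion
free subgroup `Γ` of finite index the aspherical `n`-manifolds `X / K`, `K ≤ Γ`, are all the connected covers of the compact
aspherical manifold `X / Γ`.
-/

set_option autoImplicit false

namespace Pool.Agent.Results.MP_4f4d9f_gt.CoversThinSets

open Pool.Agent.W907.SG Pool.Agent.W461.SGN Pool.Agent.R782.Bal Pool.Agent.N496.CV
open Pool.Agent.H7.RC (Thin rel_obs)
open Pool.Agent.H6.RB (VE)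

/-- Let `G` be a finite graph whose cliques have at most `d + 1` elements and whose flag complex is embedded in the
sphere of dimension `2 d`, or has a vanishing van Kampen obstruction in the degree `2 d`. Let `T` be a thin set of
vertices such that the subgraph induced on the complement of `T` is properly coloured by `d + 1` colours. Let `K` be a
group each finitely generated subgroup of which has a subgroup of finite index embedding in the right-angled Coxeter
group `W G`. Then all the `L²`-Betti numbers of `K` in the degrees above `d` vanish. -/
theorem result (d : ℕ) (V : Type) [Fintype V] [LinearOrder V] (G : SimpleGraph V) (T : Set V)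
    (col : V → Fin (d + 1)) (hdim : ∀ σ : Finset V, G.IsClique (σ : Set V) → σ.card ≤ d + 1)
    (hcol : ∀ u w, u ∉ T → w ∉ T → G.Adj u w → col u ≠ col w) (hT : Thin G T (d + 1))
    (hE : Emb d G ∨ Obs G (2 * (d + 1))) (K : Type) [Group K] (hK : VE K (W G)) (k : ℕ) (hk : d < k) :
    HasL2Betti K k 0 := by
  have hO : Obs G (2 * (d + 1)) := hE.elim (fun h => h.obs) id
  exact Pool.Agent.H6.CT.ve_top G k (by omega) (fun σ hσ => (hdim σ hσ).trans hk)
    (rel_obs hT hcol hdim hO k hk) K hK

end Pool.Agent.Results.MP_4f4d9f_gt.CoversThinSets
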