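import Pool.Agent.H6.RB.FIN3
import Pool.Agent.H6.RB.EMB2
import Pool.Agent.H6.RB.RAT
import Pool.Agent.H6.RB.TRN
import Pool.Agent.H6.RB.JOIN
import Pool.Agent.H6.RB.MV
import Pool.Agent.H6.RB.BASE

/-!
# The question of Davis and Okun for all the covers of manifolds with doubled nerves or right-angled Artin groups

Let `L` be a finite flag complex with the graph `G`, let `OL` be its octahedralisation, the flag complex of `Oc G`, let
`A_L = RAAG G` be the right-angled Artin group, and let `W (Oc G)` be the right-angled Coxeter group with the nerve `OL`,
the graph product of infinite dihedral groups over `G`, which is commensurable to `A_L`. Let `D` be a set of vertices such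
that every vertex `a` outside `D` is dominated by a vertex `u` in `D` (`u` is not adjacent to `a`, and the link of `a` is
contained in the link of `u`), for example all the vertices, and let `N ⊆ OL` be the flag complex in which only the vertices
in `D` are doubled, with the graph `Od G D`.

Let `K` be a group, with or without torsion, finitely generated or not, such that each finitely generated subgroup of `K` has
a subgroup of finite index which embeds in `W (Oc G)` (`VE K (W (Oc G))`). It suffices that these groups embed in `A_L`, or
in `W (Od G D)`; all the subgroups of these groups, of finite or infinite index, and all the groups commensurable to them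
are examples.

**(1) The question Q1.** If `N` is almost embedded in the `2d`-sphere, or if its van Kampen obstruction in the degree `2d`
vanishes, then the `L²`-Betti numbers of all these groups `K` are zero in all the degrees `> d`. If `N` is piecewise linearly
embedded in the `(n-1)`-sphere, `n = 2d` or `n = 2d + 1`, then the torsion free subgroups of finite index of `W (Od G D)` are
the fundamental groups of compact aspherical `n`-manifolds, and this is the positive answer to Q1 for all the covers of all
these manifolds, and for all the aspherical manifolds of dimension at least `n` with a fundamental group which is locally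
and virtually embedded in this way. By the theorem of Bestvina, Kapovich and Kleiner on obstructor dimension the obstruction
of `OL` vanishes if `A_L` is the fundamental group of an aspherical `n`-manifold, so the same holds for all the covers of all
such manifolds. The proof shows that a nonzero homology class mod 2 of a full subcomplex of `L` in the degree `j` gives a
nonzero van Kampen obstruction of `N` in the degree `2j`; Avramidi, Davis, Okun and Schreve proved this for `N = OL` and
`j = dim L`, and in the form `b_l(A_L) ≠ 0 ⟹ actdim A_L ≥ 2l` (`b_l` the `L²`-Betti number) it is their conjecture.

**(2) One degree.** Let `i ≥ 1` be a degree such that the reduced rational homology of `L` and of the links of all simplices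
of `L` vanishes in the degree `i - 1`. Then the `i`-th `L²`-Betti number of all these groups `K` is zero. Conversely if the
reduced rational homology of the link of some simplex (or of `L`, the link of the empty simplex) does not vanish in the
degree `i - 1` then `b_i(K) ≠ 0` for some torsion free subgroup `K` of `W (Oc G)`.

The proof of (2) is an induction on the vertices, with complexes of functions which are antisymmetric at some vertices only.
The action of `K` on the cosets of the infinite dihedral subgroup of a vertex has an orbit space with two parts: where the
stabilisers are infinite the functions split, and where they are trivial the quotient is a complex of functions for the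
link of the vertex.
-/

set_option autoImplicit false

namespace Pool.Agent.Results.MP_4f4d9f_gt.SubgroupsOfArtinGroups

open Pool.Agent.W907.SG Pool.Agent.W461.SGN Pool.Agent.N496.CV Pool.Agent.R782.Bal
open Pool.Agent.H6.RA Pool.Agent.H6.RB

/-- Let `G` be a finite graph, and let `K` be a group each finitely generated subgroup of which has a subgroup of finite index
embedding in `W (Oc G)` (`VE K (W (Oc G))`).
(1) Let `D` be a dominating set of vertices. If the flag complex of `Od G D` is almost embedded in the `2d`-sphere, or its
van Kampen obstruction in the degree `2d` vanishes, then the `L²`-Betti numbers of `K` in the degrees `> d` vanish.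
(2) Let `i ≥ 1`. If the reduced rational homology of the links of all simplices of the flag complex of `G` (that of the
empty simplex included) vanishes in the degree `i - 1` then `b_i(K) = 0`. Otherwise some torsion free subgroup of
`W (Oc G)` has a nonzero `i`-th `L²`-Betti number.
(3) The condition on `K` is satisfied if the subgroups of finite index embed in the right-angled Artin group, or in
`W (Od G D)`. -/
theorem result (V : Type) [Fintype V] [LinearOrder V] (G : SimpleGraph V) :
    (∀ (K : Type) [Group K], VE K (W (Oc G)) →
      (∀ D : Set V, Dominating G D → ∀ d : ℕ, Emb d (Od G D) ∨ Obs (Od G D) (2 * (d + 1)) →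
        ∀ i : ℕ, d < i → HasL2Betti K i 0) ∧
      ∀ i : ℕ, 0 < i → (∀ τ : Finset V, G.IsClique (τ : Set V) → Ac G (lkS G τ) i) → HasL2Betti K i 0) ∧
    (∀ (i : ℕ) (τ : Finset V), 0 < i → G.IsClique (τ : Set V) → ¬ Ac G (lkS G τ) i →
      ∃ K : Subgroup (W (Oc G)), (∀ g ∈ K, ∀ j : ℕ, 0 < j → g ^ j = 1 → g = 1) ∧ ∃ b, b ≠ 0 ∧ HasL2Betti K i b) ∧
    ∀ (K : Type) [Group K], (VE K (RAAG G) ∨ ∃ D : Set V, VE K (W (Od G D))) → VE K (W (Oc G)) := by
  refine ⟨fun K _ hK => ⟨fun D hD d h i hi => ?_, fun i hi hAc => has_o G i hi hAc K hK⟩, fun i τ hi hτ h => ?_,
    fun K _ hK => ?_⟩
  · obtain ⟨h1, _, _⟩ := q2 emb2 rat trn join mv base G D hD d h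
    refine has_o G i (by omega) (fun τ _ => ?_) K hK
    obtain ⟨n, rfl⟩ : ∃ n, i = n + 1 := ⟨i - 1, by omega⟩
    exact (h1 (lkS G τ) n (by omega)).2
  · obtain ⟨K, hK, hb⟩ := conv (rev6 tors) V G i τ hi hτ h
    exact ⟨K, fun g hg j hj hgj => tfd (Oc G) g (hK hg) j hj hgj, hb⟩
  · rcases hK with hK | ⟨D, hK⟩
    · exact ve_raag G hK
    · exact ve_od G D hK

end Pool.Agent.Results.MP_4f4d9f_gt.SubgroupsOfArtinGroups
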